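import Pool.Agent.Kob.Integrated

set_option autoImplicit false

namespace Pool.Agent.Results.MP_ef8879_an.KobayashiIncomplete

open Filter Topology Pool.Agent.Kob

/-- The second derivative `D²f(z)(w,w)`. -/
noncomputable def hessian {E : Type} [NormedAddCommGroup E] [NormedSpace ℝ E] (f : E → ℝ)
    (z w : E) : ℝ :=
  fderiv ℝ (fderiv ℝ f) z w w

/-- Levi form of `ρ` at `z` in the direction `w` (up to the factor 4): `D²ρ(z)(w,w) + D²ρ(z)(iw,iw)`. -/
noncomputable def leviForm {n : ℕ} (ρ : EuclideanSpace ℂ (Fin n) → ℝ)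
    (z w : EuclideanSpace ℂ (Fin n)) : ℝ :=
  hessian ρ z w + hessian ρ z (Complex.I • w)

/-- `ρ` is C^infinity and plurisubharmonic on `ℂⁿ`, `Ω = {ρ < 0}`, the boundary of `Ω` is `{ρ = 0}` and the
gradient of `ρ` has no zero there. -/
def HasSmoothPshDefiningFunction {n : ℕ} (Ω : Set (EuclideanSpace ℂ (Fin n)))
    (ρ : EuclideanSpace ℂ (Fin n) → ℝ) : Prop :=
  ContDiff ℝ ((⊤ : ℕ∞) : WithTop ℕ∞) ρ ∧ (∀ z w, 0 ≤ leviForm ρ z w) ∧
    Ω = {z | ρ z < 0} ∧ frontier Ω = {z | ρ z = 0} ∧ ∀ z, ρ z = 0 → fderiv ℝ ρ z ≠ 0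

/-- `Ω` is a bounded domain: bounded, open, connected, nonempty. -/
def IsBoundedDomain {n : ℕ} (Ω : Set (EuclideanSpace ℂ (Fin n))) : Prop :=
  Bornology.IsBounded Ω ∧ IsOpen Ω ∧ IsConnected Ω

/-- `x` is a Cauchy sequence for the Kobayashi distance of `Ω`. -/
def IsKobayashiCauchy {n : ℕ} (Ω : Set (EuclideanSpace ℂ (Fin n)))
    (x : ℕ → EuclideanSpace ℂ (Fin n)) : Prop :=
  ∀ ε : ℝ, 0 < ε → ∃ N : ℕ, ∀ i ≥ N, ∀ j ≥ N,
    kobayashiDist Ω (x i) (x j) < ENNReal.ofReal ε

/-- Negative answer to Q1, in dimension 4: there are a bounded domain `Ω` with a smooth plurisubharmonic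
defining function `ρ` on `ℂ⁴` and a sequence `x i` in `Ω` which is Cauchy for the Kobayashi distance of `Ω`
(the infimum of the lengths of the piecewise C1 curves in the Kobayashi-Royden metric) and tends to a
boundary point `p` of `Ω`; no point of `Ω` is a limit of `x i` for the Kobayashi distance. -/
theorem result :
    ∃ (Ω : Set (EuclideanSpace ℂ (Fin 4))) (ρ : EuclideanSpace ℂ (Fin 4) → ℝ)
      (x : ℕ → EuclideanSpace ℂ (Fin 4)) (p : EuclideanSpace ℂ (Fin 4)),
      IsBoundedDomain Ω ∧ HasSmoothPshDefiningFunction Ω ρ ∧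
      (∀ i, x i ∈ Ω) ∧ p ∈ frontier Ω ∧ Tendsto x atTop (𝓝 p) ∧ IsKobayashiCauchy Ω x ∧
      ∀ y ∈ Ω, ¬ Tendsto (fun i => kobayashiDist Ω (x i) y) atTop (𝓝 0) := by
  have hfr : frontier (Om data stdChi) = {z | rho data stdChi z = 0} := by
    have hc : Continuous (rho data stdChi) := (rho_smooth data stdChi).continuous
    apply Set.Subset.antisymm
    · exact frontier_lt_subset_eq hc continuous_const
    · intro z hz
      have hz' : rho data stdChi z = 0 := hz
      have hg := rho_grad data stdChi hz'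
      rw [(Om_open data stdChi).frontier_eq]
      refine ⟨?_, fun h => ?_⟩
      · by_contra hcl
        have hnb : (closure (Om data stdChi))ᶜ ∈ 𝓝 z := isClosed_closure.isOpen_compl.mem_nhds hcl
        have hmin : IsLocalMin (rho data stdChi) z := by
          filter_upwards [hnb] with y hy
          rw [hz']
          by_contra hlt
          exact hy (subset_closure (show rho data stdChi y < 0 from not_le.1 hlt))
        exact hg hmin.fderiv_eq_zero
      · have h' : rho data stdChi z < 0 := h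
        linarith
  refine ⟨Om data stdChi, rho data stdChi, pt, pinf, ⟨Om_bounded _ _, Om_open _ _, Om_connected _ _⟩,
    ⟨rho_smooth _ _, fun z w => rho_levi _ _ z w, rfl, hfr, fun z hz => rho_grad _ _ hz⟩,
    pt_mem _ _, ?_, pt_tendsto, int_cauchy _ _, int_no_limit _ _⟩
  rw [(Om_open data stdChi).frontier_eq]
  exact ⟨mem_closure_of_tendsto pt_tendsto (Eventually.of_forall (pt_mem _ _)),
    pinf_not_mem _ _⟩

end Pool.Agent.Results.MP_ef8879_an.KobayashiIncomplete
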